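import Mathlib

/-!
# A digraph with arbitrarily many, but not infinitely many, edge-disjoint directed double rays

Vertices: hubs `inl t` (`t : ℕ`) and line vertices `inr (x, p)`.  Line `x` is the anti-ray
`… → (x, p+1) → (x, p) → …`.  Positions `2q+1, 2q` form the pair `q`, of layer `√q`.
In layer `t` the lines `x` with `S t x` receive arcs `inl t → (x, 2q+1)` and emit arcs
`(x, 2q) → inl (t+1)`.  Line `x` belongs to family `√x`.
-/

set_option autoImplicit false
set_option maxHeartbeats 400000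

namespace Pool.Agent.H135Z.DR

abbrev V : Type := ℕ ⊕ ℕ × ℕ

def la (t : ℕ) : ℕ := t.unpair.1.unpair.1
def lb (t : ℕ) : ℕ := t.unpair.1.unpair.2

/-- the lines attached to the hubs in layer `t` -/
def S (t x : ℕ) : Prop := (la t).sqrt ≠ (lb t).sqrt → x = la t ∨ x = lb t

def Adj : V → V → Prop
  | .inr (x, p), .inr (y, q) => y = x ∧ p = q + 1
  | .inl t, .inr (x, p) => p % 2 = 1 ∧ (p / 2).sqrt = t ∧ S t x
  | .inr (x, p), .inl t => p % 2 = 0 ∧ t = (p / 2).sqrt + 1 ∧ S (p / 2).sqrt x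
  | .inl _, .inl _ => False

def ht : V → ℕ
  | .inl t => 2 * t
  | .inr (_, p) => 2 * (p / 2).sqrt + 1

lemma adj_ht {u v : V} (h : Adj u v) : ht v ≤ ht u + 1 := by
  rcases u with t | ⟨x, p⟩ <;> rcases v with s | ⟨y, q⟩
  · exact h.elim
  · obtain ⟨-, h2, -⟩ := h
    simp only [ht]; omega
  · obtain ⟨-, h2, -⟩ := h
    simp only [ht]; omega
  · obtain ⟨-, h2⟩ := h
    have : (q / 2).sqrt ≤ (p / 2).sqrt := Nat.sqrt_le_sqrt (by omega)
    simp only [ht]; omega

lemma eq_hub {v : V} {t : ℕ} (h : ht v = 2 * t) : v = .inl t := by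
  rcases v with s | ⟨y, q⟩
  · simp only [ht] at h
    have : s = t := by omega
    rw [this]
  · simp only [ht] at h; omega

section ray
variable {R : ℤ → V} (hinj : Function.Injective R) (hadj : ∀ n, Adj (R n) (R (n + 1)))
include hinj

lemma hub_finite (H : ℕ) : {m : ℤ | ∃ t ≤ H, R m = .inl t}.Finite := by
  have h1 : ((fun t : ℕ => (Sum.inl t : V)) '' {t | t ≤ H}).Finite :=
    (Set.finite_le_nat H).image _
  refine (h1.preimage hinj.injOn).subset ?_
  rintro m ⟨t, ht, hm⟩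
  exact ⟨t, ht, hm.symm⟩

include hadj

lemma unbounded (n : ℤ) (H : ℕ) : ∃ j : ℕ, H ≤ ht (R (n + j)) := by
  by_contra hcon
  push Not at hcon
  obtain ⟨b, hb⟩ := (hub_finite hinj H).bddAbove
  obtain ⟨N, hN1, hN2⟩ : ∃ N : ℤ, n ≤ N ∧ b < N := ⟨max n (b + 1), le_max_left _ _, by omega⟩
  have hno : ∀ m, N ≤ m → ∀ t, R m ≠ .inl t := by
    intro m hm t hmt
    have h1 := hcon (m - n).toNat
    have h2 : n + ((m - n).toNat : ℤ) = m := by omega
    rw [h2, hmt] at h1
    simp only [ht] at h1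
    have := hb (show m ∈ {m : ℤ | ∃ t ≤ H, R m = .inl t} from ⟨t, by omega, hmt⟩)
    omega
  obtain ⟨x, p0, h0⟩ : ∃ x p0, R N = .inr (x, p0) := by
    rcases h : R N with t | ⟨x, p⟩
    · exact (hno N le_rfl t h).elim
    · exact ⟨x, p, rfl⟩
  have key : ∀ j : ℕ, ∃ p, R (N + j) = .inr (x, p) ∧ p + j = p0 := by
    intro j
    induction j with
    | zero => exact ⟨p0, by simpa using h0, rfl⟩
    | succ j ih =>
      obtain ⟨p, hp, hpj⟩ := ih
      have ha := hadj (N + j)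
      have e : N + ((j + 1 : ℕ) : ℤ) = N + j + 1 := by push_cast; ring
      rw [e]
      rcases h : R (N + j + 1) with t | ⟨y, q⟩
      · exact (hno _ (by omega) t h).elim
      · rw [hp, h] at ha
        obtain ⟨h1, h2⟩ := ha
        exact ⟨q, by rw [h1], by omega⟩
  obtain ⟨p, -, hp⟩ := key (p0 + 1)
  omega

lemma visits (n : ℤ) (t : ℕ) (h : ht (R n) < 2 * t) : ∃ m, n < m ∧ R m = .inl t := by
  classical
  have hex := unbounded hinj hadj n (2 * t)
  have h1 := Nat.find_spec hex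
  have hpos : Nat.find hex ≠ 0 := by
    intro h0
    rw [h0] at h1
    simp only [Nat.cast_zero, add_zero] at h1
    omega
  obtain ⟨j, hj⟩ := Nat.exists_eq_succ_of_ne_zero hpos
  have h2 := Nat.find_min hex (show j < Nat.find hex by omega)
  rw [hj] at h1
  have e : n + ((j.succ : ℕ) : ℤ) = n + j + 1 := by push_cast; ring
  rw [e] at h1
  have h3 := adj_ht (hadj (n + j))
  exact ⟨n + j + 1, by omega, eq_hub (by omega)⟩

lemma back_tail : ∃ (n0 : ℤ) (x p0 : ℕ), ∀ j : ℕ, R (n0 - j) = .inr (x, p0 + j) := by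
  obtain ⟨b, hb⟩ := (hub_finite hinj (ht (R 0))).bddBelow
  obtain ⟨N, hN1, hN2⟩ : ∃ N : ℤ, N ≤ 0 ∧ N < b := ⟨min 0 (b - 1), min_le_left _ _, by omega⟩
  have hno : ∀ m, m ≤ N → ∀ t, R m ≠ .inl t := by
    intro m hm t hmt
    by_cases hle : t ≤ ht (R 0)
    · have := hb (show m ∈ {m : ℤ | ∃ t ≤ ht (R 0), R m = .inl t} from ⟨t, hle, hmt⟩)
      omega
    · obtain ⟨m', hm', h'⟩ := visits hinj hadj 0 t (by omega)
      have := hinj (hmt.trans h'.symm)
      omega
  obtain ⟨x, p0, h0⟩ : ∃ x p0, R N = .inr (x, p0) := by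
    rcases h : R N with t | ⟨x, p⟩
    · exact (hno N le_rfl t h).elim
    · exact ⟨x, p, rfl⟩
  refine ⟨N, x, p0, fun j => ?_⟩
  induction j with
  | zero => simpa using h0
  | succ j ih =>
    have ha := hadj (N - ((j + 1 : ℕ) : ℤ))
    have e : N - ((j + 1 : ℕ) : ℤ) + 1 = N - j := by push_cast; ring
    rw [e, ih] at ha
    rcases h : R (N - ((j + 1 : ℕ) : ℤ)) with t | ⟨y, q⟩
    · exact (hno _ (by omega) t h).elim
    · rw [h] at ha
      obtain ⟨h1, h2⟩ := ha
      rw [h1, h2, add_assoc]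

end ray

theorem no_infinite (R : ℕ → ℤ → V) (hinj : ∀ i, Function.Injective (R i))
    (hadj : ∀ i n, Adj (R i n) (R i (n + 1)))
    (hdis : ∀ i j, i ≠ j → ∀ m n : ℤ, ¬ (R i m = R j n ∧ R i (m + 1) = R j (n + 1))) :
    False := by
  choose n0 x p0 hx using fun i => back_tail (hinj i) (hadj i)
  have edge : ∀ i p, p0 i ≤ p → ∃ m, m < n0 i ∧ R i m = .inr (x i, p + 1) ∧
      R i (m + 1) = .inr (x i, p) := by
    intro i p hp
    refine ⟨n0 i - ((p + 1 - p0 i : ℕ) : ℤ), by omega, ?_, ?_⟩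
    · rw [hx]; congr 2; omega
    · have e : n0 i - ((p + 1 - p0 i : ℕ) : ℤ) + 1 = n0 i - ((p - p0 i : ℕ) : ℤ) := by omega
      rw [e, hx]; congr 2; omega
  have xinj : Function.Injective x := by
    intro i j hij
    by_contra hne
    obtain ⟨m, -, h1, h2⟩ := edge i (p0 i + p0 j) (by omega)
    obtain ⟨n, -, h3, h4⟩ := edge j (p0 i + p0 j) (by omega)
    exact hdis i j hne m n ⟨by rw [h1, h3, hij], by rw [h2, h4, hij]⟩
  have fam : ∀ i j, (x i).sqrt = (x j).sqrt := by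
    intro i j
    by_contra hne
    have hij : i ≠ j := fun h => hne (by rw [h])
    obtain ⟨M, hM⟩ : ∃ M, M = p0 i + p0 j + ht (R i (n0 i)) + 1 := ⟨_, rfl⟩
    obtain ⟨t, ht'⟩ : ∃ t, t = Nat.pair (Nat.pair (x i) (x j)) M := ⟨_, rfl⟩
    have htM : M ≤ t := ht' ▸ Nat.right_le_pair _ _
    have hla : la t = x i := by simp [la, ht']
    have hlb : lb t = x j := by simp [lb, ht']
    obtain ⟨m, hm, hmt⟩ := visits (hinj i) (hadj i) (n0 i) t (by omega)
    have a1 := hadj i m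
    have a2 := hadj i (m + 1)
    rcases h : R i (m + 1) with s | ⟨y, p⟩
    · rw [hmt, h] at a1; exact a1
    rw [hmt, h] at a1
    obtain ⟨hodd, hsq, hS⟩ := a1
    have hp : t ≤ p / 2 := hsq ▸ Nat.sqrt_le_self _
    obtain ⟨q, rfl⟩ : ∃ q, p = q + 1 := ⟨p - 1, by omega⟩
    have hy := hS (by rw [hla, hlb]; exact hne)
    rw [hla, hlb] at hy
    rcases hy with rfl | rfl
    · obtain ⟨m', hm', h1, -⟩ := edge i q (by omega)
      have := hinj i (h1.trans h.symm)
      omega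
    · obtain ⟨m', -, h1, h2⟩ := edge j q (by omega)
      refine hdis i j hij (m + 1) m' ⟨by rw [h, h1], ?_⟩
      rw [h2]
      rcases h' : R i (m + 1 + 1) with s | ⟨z, r⟩
      · rw [h, h'] at a2
        obtain ⟨h3, -⟩ := a2
        omega
      · rw [h, h'] at a2
        obtain ⟨h3, h4⟩ := a2
        have : r = q := by omega
        rw [h3, this]
  refine Set.infinite_range_of_injective xinj
    ((Set.finite_lt_nat (((x 0).sqrt + 1) * ((x 0).sqrt + 1))).subset ?_)
  rintro _ ⟨i, rfl⟩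
  have := Nat.lt_succ_sqrt (x i)
  rw [fam i 0] at this
  exact this

/-! ### `k` edge-disjoint double rays -/

lemma exists_line (k t : ℕ) : ∃ y, S t y ∧ y.sqrt ≠ k := by
  by_cases h : (la t).sqrt = (lb t).sqrt
  · refine ⟨(k + 1) * (k + 1), fun h' => (h' h).elim, ?_⟩
    rw [Nat.sqrt_eq]; omega
  · by_cases h1 : (la t).sqrt = k
    · exact ⟨lb t, fun _ => Or.inr rfl, fun h2 => h (h1.trans h2.symm)⟩
    · exact ⟨la t, fun _ => Or.inl rfl, h1⟩

noncomputable def yl (k t : ℕ) : ℕ := (exists_line k t).choose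

lemma yl_S (k t : ℕ) : S t (yl k t) := (exists_line k t).choose_spec.1
lemma yl_ne (k t : ℕ) : (yl k t).sqrt ≠ k := (exists_line k t).choose_spec.2

def t0 (k : ℕ) : ℕ := Nat.pair 0 k

lemma le_t0 (k : ℕ) : k ≤ t0 k := Nat.right_le_pair _ _

lemma S_t0 (k x : ℕ) : S (t0 k) x := by
  intro h
  exfalso; apply h
  simp [la, lb, t0]

def tt (k m : ℕ) : ℕ := t0 k + 1 + m / 3

noncomputable def F (k i m : ℕ) : V :=
  if m % 3 = 0 then .inl (tt k m)
  else if m % 3 = 1 then .inr (yl k (tt k m), 2 * (tt k m * tt k m + i) + 1)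
  else .inr (yl k (tt k m), 2 * (tt k m * tt k m + i))

def B (k i m : ℕ) : V := .inr (k * k + i, 2 * (t0 k * t0 k) + m)

noncomputable def ray (k i : ℕ) : ℤ → V
  | .ofNat m => F k i m
  | .negSucc m => B k i m

lemma sq_tt {k i : ℕ} (hi : i < k) (m : ℕ) : (tt k m * tt k m + i).sqrt = tt k m := by
  have := le_t0 k
  refine Nat.sqrt_add_eq _ ?_
  unfold tt; omega

lemma F_adj {k i : ℕ} (hi : i < k) (m : ℕ) : Adj (F k i m) (F k i (m + 1)) := by
  have h3 : m % 3 = 0 ∨ m % 3 = 1 ∨ m % 3 = 2 := by omega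
  have hs := sq_tt hi m
  rcases h3 with h | h | h
  · have e1 : tt k (m + 1) = tt k m := by unfold tt; omega
    have e2 : (m + 1) % 3 = 1 := by omega
    simp only [F, h, e2, e1, if_true, one_ne_zero, if_false, Adj]
    refine ⟨by omega, ?_, yl_S _ _⟩
    rw [show (2 * (tt k m * tt k m + i) + 1) / 2 = tt k m * tt k m + i by omega, hs]
  · have e1 : tt k (m + 1) = tt k m := by unfold tt; omega
    have e2 : (m + 1) % 3 = 2 := by omega
    simp [F, h, e2, e1, Adj]
  · have e1 : tt k (m + 1) = tt k m + 1 := by unfold tt; omega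
    have e2 : (m + 1) % 3 = 0 := by omega
    have e3 : (2 * (tt k m * tt k m + i)) / 2 = tt k m * tt k m + i := by omega
    simp only [F, h, e2, e1, if_true, show (2 : ℕ) ≠ 0 by omega, show (2 : ℕ) ≠ 1 by omega,
      if_false, Adj, e3, hs]
    exact ⟨by omega, trivial, yl_S _ _⟩

lemma ray_adj {k i : ℕ} (hi : i < k) (n : ℤ) : Adj (ray k i n) (ray k i (n + 1)) := by
  rcases n with m | m
  · exact F_adj hi m
  · rcases m with _ | m
    · show Adj (B k i 0) (F k i 0)
      have e3 : (2 * (t0 k * t0 k)) / 2 = t0 k * t0 k := by omega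
      simp only [B, F, tt, Adj, Nat.zero_mod, if_true, add_zero, e3, Nat.sqrt_eq, Nat.zero_div]
      exact ⟨by omega, trivial, S_t0 _ _⟩
    · show Adj (B k i (m + 1)) (B k i m)
      simp only [B, Adj]
      exact ⟨trivial, by omega⟩

lemma F_eq {k i j : ℕ} (hi : i < k) (hj : j < k) {m m' : ℕ} (h : F k i m = F k j m') :
    m = m' ∧ (i = j ∨ ∃ t, F k i m = .inl t) := by
  have hs := sq_tt hi m
  have hs' := sq_tt hj m'
  have key : tt k m * tt k m + i = tt k m' * tt k m' + j → m / 3 = m' / 3 ∧ i = j := by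
    intro e
    have e1 : tt k m = tt k m' := by rw [← hs, e, hs']
    rw [e1] at e
    unfold tt at e1
    omega
  have h3 : m % 3 = 0 ∨ m % 3 = 1 ∨ m % 3 = 2 := by omega
  have h3' : m' % 3 = 0 ∨ m' % 3 = 1 ∨ m' % 3 = 2 := by omega
  rcases h3 with a | a | a <;> rcases h3' with b | b | b <;>
    simp only [F, a, b, if_true, one_ne_zero, if_false, show (2 : ℕ) ≠ 0 by omega,
      show (2 : ℕ) ≠ 1 by omega, Sum.inl.injEq, Sum.inr.injEq, Prod.mk.injEq, reduceCtorEq] at h ⊢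
  · unfold tt at h
    exact ⟨by omega, Or.inr ⟨_, rfl⟩⟩
  · have := key (by omega)
    exact ⟨by omega, Or.inl this.2⟩
  · omega
  · omega
  · have := key (by omega)
    exact ⟨by omega, Or.inl this.2⟩

lemma F_ne_B {k i j : ℕ} (hj : j < k) (m m' : ℕ) : F k i m ≠ B k j m' := by
  have h1 : (k * k + j).sqrt = k := Nat.sqrt_add_eq _ (by omega)
  have h2 := yl_ne k (tt k m)
  intro h
  unfold F B at h
  split_ifs at h
  all_goals
    simp only [Sum.inr.injEq, Prod.mk.injEq] at h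
    exact h2 (by rw [h.1, h1])

lemma ray_eq {k i j : ℕ} (hi : i < k) (hj : j < k) {n n' : ℤ} (h : ray k i n = ray k j n') :
    n = n' ∧ (i = j ∨ ∃ t, ray k i n = .inl t) := by
  rcases n with m | m <;> rcases n' with m' | m'
  · obtain ⟨h1, h2⟩ := F_eq hi hj h
    exact ⟨by rw [h1], h2⟩
  · exact (F_ne_B hj m m' h).elim
  · exact (F_ne_B hi m' m h.symm).elim
  · have h' : B k i m = B k j m' := h
    simp only [B, Sum.inr.injEq, Prod.mk.injEq] at h'
    have : m = m' := by omega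
    exact ⟨by rw [this], Or.inl (by omega)⟩

theorem arbitrarily_many (k : ℕ) : ∃ R : Fin k → ℤ → V,
    (∀ i, Function.Injective (R i)) ∧ (∀ i n, Adj (R i n) (R i (n + 1))) ∧
    (∀ i j, i ≠ j → ∀ m n : ℤ, ¬ (R i m = R j n ∧ R i (m + 1) = R j (n + 1))) := by
  refine ⟨fun i => ray k i, fun i n n' h => (ray_eq i.2 i.2 h).1, fun i n => ray_adj i.2 n, ?_⟩
  rintro i j hij m n ⟨h1, h2⟩
  have hne : (i : ℕ) ≠ j := fun h => hij (Fin.ext h)
  obtain ⟨t, ht⟩ := (ray_eq i.2 j.2 h1).2.resolve_left hne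
  obtain ⟨s, hs⟩ := (ray_eq i.2 j.2 h2).2.resolve_left hne
  have := ray_adj i.2 m
  rw [ht, hs] at this
  exact this

end Pool.Agent.H135Z.DR
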